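import Pool.Agent.Q113.XM.Stm

/-! Project XM, job BRG: the uniform law. -/

set_option autoImplicit false

namespace Pool.Agent.Q111.XM

open Pool.Agent.Q113.XM Pool.Agent.Q54.EM

/-- counting tuples -/
theorem EE_cnt {V : Type} [Fintype V] (y : V → ℝ) (c t : ℝ) (j : ℕ) : ∀ a : ℝ,
    EE (fun _ : V => c) y j (fun s => if t ≤ s + a then 1 else 0) =
      c ^ j * (({f : Fin j → V | t ≤ ∑ i, y (f i) + a}.ncard : ℕ) : ℝ) := by
  induction j with
  | zero =>
    intro a
    simp only [EE, pow_zero, one_mul, zero_add]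
    by_cases h : t ≤ a
    · rw [if_pos h]
      have : {f : Fin 0 → V | t ≤ ∑ i, y (f i) + a} = Set.univ := by
        ext f; simp [h]
      rw [this, Set.ncard_univ]
      simp
    · rw [if_neg h]
      have : {f : Fin 0 → V | t ≤ ∑ i, y (f i) + a} = ∅ := by
        ext f; simp [h]
      rw [this]
      simp
  | succ j ih =>
    intro a
    simp only [EE]
    have h1 : ∀ v : V, EE (fun _ : V => c) y j
        (fun s => if t ≤ s + y v + a then (1 : ℝ) else 0) =
        c ^ j * (({f : Fin j → V | t ≤ ∑ i, y (f i) + (y v + a)}.ncard : ℕ) : ℝ) := by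
      intro v
      rw [← ih (y v + a)]
      congr 1
      funext s
      rw [add_assoc]
    simp_rw [h1]
    have h2 : (({f : Fin (j + 1) → V | t ≤ ∑ i, y (f i) + a}.ncard : ℕ) : ℝ) =
        ∑ v : V, (({f : Fin j → V | t ≤ ∑ i, y (f i) + (y v + a)}.ncard : ℕ) : ℝ) := by
      classical
      rw [← Nat.cast_sum]
      congr 1
      have e1 : ∀ (m : ℕ) (P : (Fin m → V) → Prop) [DecidablePred P],
          {f : Fin m → V | P f}.ncard = ∑ f : Fin m → V, if P f then 1 else 0 := by
        intro m P _
        rw [← Finset.card_filter, ← Set.ncard_coe_finset]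
        congr 1
        ext f
        simp
      rw [e1]
      simp_rw [fun v => e1 j (fun f => t ≤ ∑ i, y (f i) + (y v + a))]
      rw [← Fintype.sum_prod_type']
      rw [← (Fin.consEquiv (fun _ : Fin (j + 1) => V)).sum_comp]
      refine Finset.sum_congr rfl fun q _ => ?_
      refine if_congr ?_ rfl rfl
      have h5 : ∑ i, y ((Fin.consEquiv (fun _ : Fin (j + 1) => V)) q i) =
          y q.1 + ∑ i : Fin j, y (q.2 i) := by
        rw [Fin.sum_univ_succ]
        rfl
      rw [h5]
      have h6 : y q.1 + ∑ i, y (q.2 i) + a = ∑ i, y (q.2 i) + (y q.1 + a) := by ring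
      rw [h6]
    rw [h2, Finset.mul_sum]
    refine Finset.sum_congr rfl fun v _ => ?_
    rw [pow_succ]
    ring

theorem t_BRG : S_BRG := by
  intro V _ _ y hy
  have hV : (0 : ℝ) < Fintype.card V := by exact_mod_cast Fintype.card_pos
  refine ⟨⟨fun _ => by positivity, ?_, hy⟩, ?_, fun j t => ?_⟩
  · rw [Finset.sum_const, Finset.card_univ, nsmul_eq_mul]
    field_simp
  · unfold mu
    rw [← Finset.mul_sum]
    ring
  · unfold UP
    have h := EE_cnt y (1 / (Fintype.card V : ℝ)) t j 0
    simp only [add_zero] at h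
    rw [h, one_div, inv_pow]
    field_simp

end Pool.Agent.Q111.XM
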