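import Pool.Agent.Q113.XM.Stm

/-! Project XM, job NCP: nearly complete hypergraphs. -/

set_option autoImplicit false

namespace Pool.Agent.Q111.XM

open Finset Pool.Agent.W890.SF Pool.Agent.Q113.XM

theorem choose_diff (k m d : ℕ) (hk : 1 ≤ k) :
    (m + d).choose k ≤ m.choose k + d * (m + d) ^ (k - 1) := by
  obtain ⟨j, rfl⟩ : ∃ j, k = j + 1 := ⟨k - 1, by omega⟩
  rw [Nat.add_sub_cancel]
  induction d with
  | zero => simp
  | succ d ih =>
    have h1 : (m + (d + 1)).choose (j + 1) = (m + d).choose j + (m + d).choose (j + 1) := by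
      rw [← add_assoc, Nat.choose_succ_succ]
    have h2 : (m + d).choose j ≤ (m + d) ^ j := Nat.choose_le_pow _ _
    have h3 : (m + d) ^ j ≤ (m + (d + 1)) ^ j := Nat.pow_le_pow_left (by omega) j
    have h4 : d * (m + d) ^ j ≤ d * (m + (d + 1)) ^ j := Nat.mul_le_mul_left d h3
    calc (m + (d + 1)).choose (j + 1) = (m + d).choose j + (m + d).choose (j + 1) := h1
      _ ≤ (m + (d + 1)) ^ j + (m.choose (j + 1) + d * (m + (d + 1)) ^ j) := by omega
      _ = m.choose (j + 1) + (d + 1) * (m + (d + 1)) ^ j := by ring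

theorem ms_le {n : ℕ} (k : ℕ) (hk : 1 ≤ k) (F : Finset (Finset (Fin n))) (v : Fin n) :
    ms k F univ v ≤
      (((univ.powersetCard k).filter (fun e => e ∉ F)).filter (fun e => v ∈ e)).card := by
  unfold ms
  refine Finset.card_le_card_of_injOn (fun S => insert v S) (fun S hS => ?_) ?_
  · rw [mem_coe, mem_filter, mem_powersetCard] at hS
    rw [mem_coe, mem_filter, mem_filter, mem_powersetCard]
    have hv : v ∉ S := fun h => by
      have := hS.1.1 h
      simp at this
    refine ⟨⟨⟨subset_univ _, ?_⟩, hS.2⟩, mem_insert_self v S⟩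
    rw [card_insert_of_notMem hv, hS.1.2]
    omega
  · intro S hS S' hS' h
    rw [mem_coe, mem_filter, mem_powersetCard] at hS hS'
    have hv : v ∉ S := fun h => by
      have := hS.1.1 h
      simp at this
    have hv' : v ∉ S' := fun h => by
      have := hS'.1.1 h
      simp at this
    have h2 : (insert v S).erase v = (insert v S').erase v := congrArg (fun e => e.erase v) h
    rwa [erase_insert hv, erase_insert hv'] at h2

theorem sum_ms {n : ℕ} (k : ℕ) (hk : 1 ≤ k) (F : Finset (Finset (Fin n))) :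
    ∑ v : Fin n, ms k F univ v ≤
      k * ((univ.powersetCard k).filter (fun e => e ∉ F)).card := by
  set N := (univ.powersetCard k).filter (fun e : Finset (Fin n) => e ∉ F) with hN
  calc ∑ v : Fin n, ms k F univ v ≤ ∑ v : Fin n, (N.filter (fun e => v ∈ e)).card :=
        Finset.sum_le_sum fun v _ => ms_le k hk F v
    _ = ∑ e ∈ N, (univ.filter (fun v : Fin n => v ∈ e)).card :=
        Finset.sum_card_bipartiteAbove_eq_sum_card_bipartiteBelow (fun (v : Fin n) e => v ∈ e)
    _ = ∑ e ∈ N, k := by
        refine Finset.sum_congr rfl fun e he => ?_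
        rw [hN, mem_filter, mem_powersetCard] at he
        rw [Finset.filter_mem_eq_inter, univ_inter, he.1.2]
    _ = k * N.card := by rw [sum_const, smul_eq_mul, mul_comm]

theorem ms_mono {n : ℕ} (k : ℕ) (F : Finset (Finset (Fin n))) (T : Finset (Fin n)) (v : Fin n) :
    ms k F T v ≤ ms k F univ v := by
  unfold ms
  exact card_le_card (filter_subset_filter _ (powersetCard_mono (erase_subset_erase v
    (subset_univ T))))

theorem t_NCP : S_NCP := by
  intro k hk γ hγ
  have hk0 : (0 : ℝ) < k := by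
    have : 0 < k := by omega
    exact_mod_cast this
  refine ⟨γ ^ 2 / k, by positivity, 1, fun n hn F hF s hs1 hs2 hs3 => ?_⟩
  have hn0 : (0 : ℝ) < n := by exact_mod_cast hn
  -- the number of non-edges
  set N := (univ.powersetCard k).filter (fun e : Finset (Fin n) => e ∉ F) with hN
  have hcard : N.card + F.card = n.choose k := by
    have h1 : (univ.powersetCard k).filter (fun e : Finset (Fin n) => e ∈ F) = F := by
      ext e
      rw [mem_filter, mem_powersetCard]
      exact ⟨fun h => h.2, fun h => ⟨⟨subset_univ _, hF e h⟩, h⟩⟩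
    have h2 := Finset.card_filter_add_card_filter_not (s := (univ.powersetCard k))
      (fun e : Finset (Fin n) => e ∈ F)
    rw [h1, card_powersetCard, card_univ, Fintype.card_fin] at h2
    rw [hN]
    omega
  obtain ⟨d, hd⟩ : ∃ d, n = (k * (s + 1) - 1) + d := ⟨n - (k * (s + 1) - 1), by omega⟩
  have hNb : N.card ≤ d * n ^ (k - 1) := by
    have h1 := choose_diff k (k * (s + 1) - 1) d (by omega)
    rw [← hd] at h1
    omega
  have hdn : (d : ℝ) ≤ γ ^ 2 / k * n := by
    have h1 : k * s ≤ k * (s + 1) - 1 := by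
      have : k * (s + 1) = k * s + k := by ring
      omega
    have h2 : d + k * s ≤ n := by omega
    have h3 : (d : ℝ) + k * s ≤ n := by exact_mod_cast h2
    linarith
  have hsum : (∑ v : Fin n, (ms k F univ v : ℝ)) ≤ γ ^ 2 * (n * (n : ℝ) ^ (k - 1)) := by
    have h1 : ((∑ v : Fin n, ms k F univ v : ℕ) : ℝ) ≤ ((k * (d * n ^ (k - 1)) : ℕ) : ℝ) := by
      exact_mod_cast (sum_ms k (by omega) F).trans (Nat.mul_le_mul_left k hNb)
    push_cast at h1
    calc (∑ v : Fin n, (ms k F univ v : ℝ)) ≤ k * (d * (n : ℝ) ^ (k - 1)) := h1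
      _ ≤ k * ((γ ^ 2 / k * n) * (n : ℝ) ^ (k - 1)) := by gcongr
      _ = γ ^ 2 * (n * (n : ℝ) ^ (k - 1)) := by
          field_simp
  set T : Finset (Fin n) :=
    univ.filter (fun v => (ms k F univ v : ℝ) ≤ γ * (n : ℝ) ^ (k - 1)) with hT
  refine ⟨T, ?_, fun v hv => ?_⟩
  · have hpow : (0 : ℝ) < (n : ℝ) ^ (k - 1) := by positivity
    have h1 : ((univ \ T).card : ℝ) * (γ * (n : ℝ) ^ (k - 1)) ≤
        ∑ v : Fin n, (ms k F univ v : ℝ) := by
      calc ((univ \ T).card : ℝ) * (γ * (n : ℝ) ^ (k - 1))
          = ∑ v ∈ univ \ T, γ * (n : ℝ) ^ (k - 1) := by rw [sum_const, nsmul_eq_mul]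
        _ ≤ ∑ v ∈ univ \ T, (ms k F univ v : ℝ) := by
            refine Finset.sum_le_sum fun v hv => ?_
            rw [mem_sdiff, hT, mem_filter] at hv
            by_contra h
            exact hv.2 ⟨mem_univ v, (not_le.1 h).le⟩
        _ ≤ _ := Finset.sum_le_sum_of_subset_of_nonneg (subset_univ _) fun _ _ _ =>
            Nat.cast_nonneg _
    have h2 : ((univ \ T).card : ℝ) ≤ γ * n := by
      have h3 := h1.trans hsum
      have h4 : γ ^ 2 * (n * (n : ℝ) ^ (k - 1)) = (γ * n) * (γ * (n : ℝ) ^ (k - 1)) := by ring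
      rw [h4] at h3
      exact le_of_mul_le_mul_right h3 (by positivity)
    have h3 : (univ \ T).card + T.card = n := by
      rw [card_sdiff_add_card_eq_card (subset_univ T), card_univ, Fintype.card_fin]
    have h4 : ((univ \ T).card : ℝ) + T.card = n := by exact_mod_cast h3
    have h5 : (k : ℝ) * s ≤ n := by
      have h6 : k * s ≤ n := by
        have : k * (s + 1) = k * s + k := by ring
        omega
      exact_mod_cast h6
    linarith
  · rw [hT, mem_filter] at hv
    exact le_trans (by exact_mod_cast ms_mono k F T v) hv.2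

end Pool.Agent.Q111.XM
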